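import Pool.Agent.TH316.AT.Ex

/-!
# EX-CT: joint continuity and bounds of the Duhamel terms
-/

set_option autoImplicit false

open MeasureTheory ProbabilityTheory Set Filter Topology

namespace Pool.TH530.AT

open Pool.TH198.AT Pool.TH316.AT

lemma continuous_ck : Continuous ck := by unfold ck; fun_prop

lemma ck_mem (t : ℝ) : ck t ∈ Icc (0 : ℝ) 1 := by
  unfold ck
  exact ⟨le_max_left _ _, max_le zero_le_one (min_le_right _ _)⟩

lemma mono_m {ζ : ℝ → ℝ} (h : IsCdf ζ) : Monotone (fun s => ζ (ck s)) := by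
  intro a b hab
  refine h.1 (ck_mem a) (ck_mem b) ?_
  unfold ck
  exact max_le_max le_rfl (min_le_min hab le_rfl)

lemma zt_eq (ζ : ℝ → ℝ) (s : ℝ) : zt ζ s = if s ≤ 1 then ζ (ck s) else 0 := by
  unfold zt ck
  split_ifs with h
  · rw [min_eq_left h]
  · rfl

lemma zt_nonneg {ζ : ℝ → ℝ} (h : IsCdf ζ) (s : ℝ) : 0 ≤ zt ζ s := by
  rw [zt_eq]
  split_ifs
  · exact (h.2.1 _ (ck_mem s)).1
  · exact le_rfl

lemma zt_le {ζ : ℝ → ℝ} (h : IsCdf ζ) (s : ℝ) : zt ζ s ≤ 1 := by
  rw [zt_eq]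
  split_ifs
  · exact (h.2.1 _ (ck_mem s)).2
  · exact zero_le_one

lemma meas_zt {ζ : ℝ → ℝ} (h : IsCdf ζ) : Measurable (zt ζ) := by
  have : zt ζ = fun s => if s ≤ 1 then ζ (ck s) else 0 := funext (zt_eq ζ)
  rw [this]
  exact Measurable.ite measurableSet_Iic (mono_m h).measurable measurable_const

lemma cont_zt {ζ : ℝ → ℝ} (h : IsCdf ζ) :
    ({s | ¬ ContinuousAt (zt ζ) s} : Set ℝ).Countable := by
  refine ((mono_m h).countable_not_continuousAt.union (countable_singleton (1 : ℝ))).mono ?_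
  intro s hs
  rw [mem_ofPred_eq] at hs
  rcases lt_trichotomy s 1 with h1 | h1 | h1
  · left
    intro hc
    apply hs
    refine hc.congr ?_
    filter_upwards [Iio_mem_nhds h1] with y hy
    rw [zt_eq, if_pos (le_of_lt hy)]
  · right; exact h1
  · exfalso
    apply hs
    have : (fun _ : ℝ => (0 : ℝ)) =ᶠ[𝓝 s] zt ζ := by
      filter_upwards [Ioi_mem_nhds h1] with y hy
      rw [zt_eq, if_neg (not_le.2 hy)]
    exact (continuousAt_const).congr this

lemma int_abs : Integrable (fun y : ℝ => |y|) (gaussianReal 0 1) := by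
  have h : MemLp (id : ℝ → ℝ) 1 (gaussianReal 0 1) := by
    simpa using memLp_id_gaussianReal (μ := 0) (v := 1) 1
  exact (memLp_one_iff_integrable.1 h).abs

lemma int_sq : Integrable (fun y : ℝ => y ^ 2) (gaussianReal 0 1) := by
  have h : MemLp (id : ℝ → ℝ) 2 (gaussianReal 0 1) := by
    simpa using memLp_id_gaussianReal (μ := 0) (v := 1) 2
  exact h.integrable_sq

lemma E_sq : ∫ y : ℝ, y ^ 2 ∂(gaussianReal 0 1) = 1 := by
  have h := variance_id_gaussianReal (μ := 0) (v := 1)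
  have h2 : MemLp (id : ℝ → ℝ) 2 (gaussianReal 0 1) := by
    simpa using memLp_id_gaussianReal (μ := 0) (v := 1) 2
  rw [variance_eq_sub h2] at h
  simpa [integral_id_gaussianReal] using h

lemma E_abs : ∫ y : ℝ, |y| ∂(gaussianReal 0 1) ≤ 1 := by
  have h1 : ∫ y : ℝ, |y| ∂(gaussianReal 0 1) ≤ ∫ y : ℝ, (1 + y ^ 2) / 2 ∂(gaussianReal 0 1) := by
    refine integral_mono int_abs (((integrable_const _).add int_sq).div_const 2) fun y => ?_
    show |y| ≤ (1 + y ^ 2) / 2
    nlinarith [sq_nonneg (|y| - 1), sq_abs y]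
  have h2 : ∫ y : ℝ, (1 + y ^ 2) / 2 ∂(gaussianReal 0 1) = 1 := by
    rw [integral_div, integral_add (integrable_const _) int_sq, E_sq]
    simp
  linarith

section
variable {C : ℝ} {g : ℝ → ℝ → ℝ}

lemma contA (hg : BC C g) :
    Continuous (fun p : ℝ × ℝ × ℝ => E1 (fun y => g p.1 (p.2.1 + p.2.2 * y))) := by
  unfold E1
  refine continuous_of_dominated (bound := fun _ => C) (fun p => ?_) (fun p => ?_)
    (integrable_const _) ?_
  · exact (hg.1.comp (by fun_prop : Continuous fun y : ℝ =>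
      ((p.1, p.2.1 + p.2.2 * y) : ℝ × ℝ))).aestronglyMeasurable
  · exact Eventually.of_forall fun y => hg.2 _ _
  · exact Eventually.of_forall fun y => hg.1.comp (by fun_prop : Continuous fun p : ℝ × ℝ × ℝ =>
      ((p.1, p.2.1 + p.2.2 * y) : ℝ × ℝ))

lemma contB (hg : BC C g) :
    Continuous (fun p : ℝ × ℝ × ℝ => E1 (fun y => y * g p.1 (p.2.1 + p.2.2 * y))) := by
  unfold E1
  refine continuous_of_dominated (bound := fun y => |y| * C) (fun p => ?_) (fun p => ?_)
    (int_abs.mul_const _) ?_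
  · exact (continuous_id.mul (hg.1.comp (by fun_prop : Continuous fun y : ℝ =>
      ((p.1, p.2.1 + p.2.2 * y) : ℝ × ℝ)))).aestronglyMeasurable
  · refine Eventually.of_forall fun y => ?_
    rw [Real.norm_eq_abs, abs_mul]
    exact mul_le_mul_of_nonneg_left (hg.2 _ _) (abs_nonneg _)
  · exact Eventually.of_forall fun y => continuous_const.mul
      (hg.1.comp (by fun_prop : Continuous fun p : ℝ × ℝ × ℝ =>
        ((p.1, p.2.1 + p.2.2 * y) : ℝ × ℝ)))

lemma C_nonneg (hg : BC C g) : 0 ≤ C := (abs_nonneg _).trans (hg.2 0 0)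

lemma bdA (hg : BC C g) (s x r : ℝ) : |E1 (fun y => g s (x + r * y))| ≤ C := by
  unfold E1
  rw [← Real.norm_eq_abs]
  refine (norm_integral_le_of_norm_le_const (C := C)
    (Eventually.of_forall fun y => hg.2 _ _)).trans ?_
  simp

lemma bdB (hg : BC C g) (s x r : ℝ) : |E1 (fun y => y * g s (x + r * y))| ≤ C := by
  unfold E1
  rw [← Real.norm_eq_abs]
  refine (norm_integral_le_of_norm_le (g := fun y => |y| * C) (int_abs.mul_const _)
    (Eventually.of_forall fun y => ?_)).trans ?_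
  · rw [Real.norm_eq_abs, abs_mul]
    exact mul_le_mul_of_nonneg_left (hg.2 _ _) (abs_nonneg _)
  · rw [integral_mul_const]
    nlinarith [E_abs, C_nonneg hg]

end

lemma bd_int {ζ : ℝ → ℝ} (h : IsCdf ζ) {K : ℝ} (w : ℝ → ℝ)
    (hw : ∀ u ∈ Ioc (0 : ℝ) 1, 0 ≤ w u) (A : ℝ × ℝ × ℝ → ℝ)
    (hAb : ∀ p, |A p| ≤ K) (c t x : ℝ) :
    ∀ u ∈ Ioc (0 : ℝ) 1, ‖w u * (zt ζ (t + u ^ 2) * A (t + u ^ 2, x, c * u))‖ ≤ w u * K := by
  intro u hu
  rw [Real.norm_eq_abs, abs_mul, abs_mul, abs_of_nonneg (hw u hu), abs_of_nonneg (zt_nonneg h _)]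
  refine mul_le_mul_of_nonneg_left ?_ (hw u hu)
  have h1 := zt_nonneg h (t + u ^ 2)
  have h2 := zt_le h (t + u ^ 2)
  have h3 := hAb (t + u ^ 2, x, c * u)
  have h4 := abs_nonneg (A (t + u ^ 2, x, c * u))
  nlinarith

lemma gen {ζ : ℝ → ℝ} (h : IsCdf ζ) {K : ℝ} (w : ℝ → ℝ) (hwc : Continuous w)
    (hw : ∀ u ∈ Ioc (0 : ℝ) 1, 0 ≤ w u) (A : ℝ × ℝ × ℝ → ℝ) (hA : Continuous A)
    (hAb : ∀ p, |A p| ≤ K) (c : ℝ) :
    Continuous (fun p : ℝ × ℝ =>
      ∫ u in (0 : ℝ)..1, w u * (zt ζ (ck p.1 + u ^ 2) * A (ck p.1 + u ^ 2, p.2, c * u))) := by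
  rw [continuous_iff_continuousAt]
  intro p0
  refine intervalIntegral.continuousAt_of_dominated_interval (bound := fun u => w u * K)
    (Eventually.of_forall fun p => ?_) (Eventually.of_forall fun p => ?_) ?_ ?_
  · have m1 : Measurable (fun u : ℝ => zt ζ (ck p.1 + u ^ 2)) :=
      (meas_zt h).comp (by fun_prop)
    have m2 : Measurable (fun u : ℝ => A (ck p.1 + u ^ 2, p.2, c * u)) :=
      (hA.comp (by fun_prop : Continuous fun u : ℝ =>
        ((ck p.1 + u ^ 2, p.2, c * u) : ℝ × ℝ × ℝ))).measurable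
    exact (hwc.measurable.mul (m1.mul m2)).aestronglyMeasurable
  · refine Eventually.of_forall fun u hu => ?_
    rw [uIoc_of_le zero_le_one] at hu
    exact bd_int h w hw A hAb c (ck p.1) p.2 u hu
  · exact (hwc.mul continuous_const).intervalIntegrable _ _
  · have hS : ({u : ℝ | 0 < u ∧ ¬ ContinuousAt (zt ζ) (ck p0.1 + u ^ 2)} : Set ℝ).Countable := by
      refine MapsTo.countable_of_injOn (f := fun u : ℝ => ck p0.1 + u ^ 2)
        (t := {s | ¬ ContinuousAt (zt ζ) s}) (fun u hu => hu.2) ?_ (cont_zt h)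
      intro u hu v hv huv
      have h1 : u ^ 2 = v ^ 2 := by simpa using huv
      exact (sq_eq_sq₀ hu.1.le hv.1.le).1 h1
    filter_upwards [hS.ae_notMem volume] with u hu hu1
    rw [uIoc_of_le zero_le_one] at hu1
    have h1 : ContinuousAt (zt ζ) (ck p0.1 + u ^ 2) := by
      by_contra hc
      exact hu ⟨hu1.1, hc⟩
    have h2 : ContinuousAt (fun p : ℝ × ℝ => zt ζ (ck p.1 + u ^ 2)) p0 := by
      have h3 : ContinuousAt (fun p : ℝ × ℝ => ck p.1 + u ^ 2) p0 :=
        ((continuous_ck.comp continuous_fst).add continuous_const).continuousAt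
      exact ContinuousAt.comp (f := fun p : ℝ × ℝ => ck p.1 + u ^ 2) (g := zt ζ) (x := p0) h1 h3
    have h4 : ContinuousAt (fun p : ℝ × ℝ => A (ck p.1 + u ^ 2, p.2, c * u)) p0 := by
      refine (hA.comp ?_).continuousAt
      exact ((continuous_ck.comp continuous_fst).add continuous_const).prodMk
        (continuous_snd.prodMk continuous_const)
    exact continuousAt_const.mul (h2.mul h4)

/-- EX-CT -/
theorem t_CT : St_CT := by
  intro β C ζ g hβ hζ hg
  have hC := C_nonneg hg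
  have hr : √(2 * β ^ 2) = √2 * β := by
    rw [Real.sqrt_mul (by norm_num), Real.sqrt_sq hβ.le]
  have h2 : 0 < √(2 : ℝ) := by positivity
  have h22 : √(2 : ℝ) * √2 = 2 := Real.mul_self_sqrt (by norm_num)
  refine ⟨⟨?_, fun t x => ?_⟩, ⟨?_, fun t x => ?_⟩⟩
  · unfold SP
    exact continuous_const.mul (gen hζ (K := C) (fun u => 2 * u) (by fun_prop)
      (fun u hu => by have := hu.1; positivity)
      (fun p => E1 (fun y => g p.1 (p.2.1 + p.2.2 * y))) (contA hg)
      (fun p => bdA hg _ _ _) (√(2 * β ^ 2)))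
  · unfold SP
    rw [abs_mul, abs_of_nonneg (by positivity : (0:ℝ) ≤ β ^ 2)]
    refine mul_le_mul_of_nonneg_left ?_ (by positivity)
    rw [← Real.norm_eq_abs]
    have h1 := intervalIntegral.norm_integral_le_of_norm_le (μ := volume) (a := 0) (b := 1)
      (f := fun u => 2 * u * (zt ζ (ck t + u ^ 2) *
        E1 (fun y => g (ck t + u ^ 2) (x + √(2 * β ^ 2) * u * y)))) (g := fun u => 2 * u * C)
      zero_le_one (Eventually.of_forall fun u hu =>
        bd_int hζ (K := C) (fun u => 2 * u) (fun u hu => by have := hu.1; positivity)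
          (fun p => E1 (fun y => g p.1 (p.2.1 + p.2.2 * y))) (fun p => bdA hg _ _ _)
          (√(2 * β ^ 2)) (ck t) x u hu)
      ((by fun_prop : Continuous fun u : ℝ => 2 * u * C).intervalIntegrable _ _)
    refine h1.trans (le_of_eq ?_)
    rw [intervalIntegral.integral_mul_const, intervalIntegral.integral_const_mul, integral_id]
    ring
  · unfold SD
    exact continuous_const.mul (gen hζ (K := C) (fun _ => 2 / √(2 * β ^ 2)) (by fun_prop)
      (fun u hu => by positivity)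
      (fun p => E1 (fun y => y * g p.1 (p.2.1 + p.2.2 * y))) (contB hg)
      (fun p => bdB hg _ _ _) (√(2 * β ^ 2)))
  · unfold SD
    rw [abs_mul, abs_of_nonneg (by positivity : (0:ℝ) ≤ β ^ 2)]
    have h1 := intervalIntegral.norm_integral_le_of_norm_le (μ := volume) (a := 0) (b := 1)
      (f := fun u => 2 / √(2 * β ^ 2) * (zt ζ (ck t + u ^ 2) *
        E1 (fun y => y * g (ck t + u ^ 2) (x + √(2 * β ^ 2) * u * y))))
      (g := fun _ => 2 / √(2 * β ^ 2) * C)
      zero_le_one (Eventually.of_forall fun u hu =>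
        bd_int hζ (K := C) (fun _ => 2 / √(2 * β ^ 2)) (fun u hu => by positivity)
          (fun p => E1 (fun y => y * g p.1 (p.2.1 + p.2.2 * y))) (fun p => bdB hg _ _ _)
          (√(2 * β ^ 2)) (ck t) x u hu)
      (continuous_const.intervalIntegrable _ _)
    rw [intervalIntegral.integral_const, sub_zero, one_smul, Real.norm_eq_abs] at h1
    refine (mul_le_mul_of_nonneg_left h1 (by positivity)).trans ?_
    rw [hr]
    have e : β ^ 2 * (2 / (√2 * β) * C) = √2 * β * C := by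
      have : (2 : ℝ) = √2 * √2 := h22.symm
      field_simp
      nlinarith
    rw [e]
    have h3 : √(2 : ℝ) ≤ 2 := by nlinarith
    have : 0 ≤ β * C := by positivity
    nlinarith

end Pool.TH530.AT
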